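import Pool.Agent.Helper14.BSC.Stmts

/-!
# CL3: the 3-structure of `FF S`
-/

set_option autoImplicit false

namespace Pool.Agent.Helper14.BSC

section finfield

theorem cl3_prod {K : Type} [CommRing K] (A B G θ ω : K) (hω : ω ^ 2 + ω + 1 = 0) :
    (A + θ * B + θ ^ 2 * G) * (A + (ω * θ) * B + (ω * θ) ^ 2 * G) *
      (A + (ω ^ 2 * θ) * B + (ω ^ 2 * θ) ^ 2 * G) =
      A ^ 3 + θ ^ 3 * B ^ 3 + (θ ^ 3) ^ 2 * G ^ 3 - 3 * (θ ^ 3 * (A * (B * G))) := by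
  linear_combination ((A + θ * B + θ ^ 2 * G) * ((θ * B) ^ 2 * (ω - 1) +
    (θ ^ 2 * G) ^ 2 * ((ω - 1) * (ω ^ 3 + 1)) + A * (θ * B) + A * (θ ^ 2 * G) * (ω ^ 2 - ω + 1) +
    (θ * B) * (θ ^ 2 * G) * (ω ^ 3 - ω + 1))) * hω

/-- the cubic norm form is anisotropic -/
theorem cl3_aniso (κ : Type) [Field κ] (c : κ) (hc : ∀ y : κ, y ^ 3 ≠ c) (a b g : κ)
    (h : a ^ 3 + c * b ^ 3 + c ^ 2 * g ^ 3 - 3 * (c * (a * (b * g))) = 0) : a = 0 ∧ b = 0 ∧ g = 0 := by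
  let K := AlgebraicClosure κ
  let φ : κ →+* K := algebraMap κ K
  obtain ⟨θ, hθ⟩ : ∃ θ : K, θ ^ 3 = φ c := IsAlgClosed.exists_pow_nat_eq (φ c) (by norm_num)
  obtain ⟨ω, hω⟩ : ∃ ω : K, ω ^ 2 + ω + 1 = 0 := by
    obtain ⟨s, hs⟩ := IsAlgClosed.exists_root (Polynomial.X ^ 2 + Polynomial.X + 1 : Polynomial K) (by
      have : (Polynomial.X ^ 2 + Polynomial.X + 1 : Polynomial K).degree = 2 := by compute_degree!
      rw [this]
      norm_num)
    refine ⟨s, ?_⟩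
    simpa [Polynomial.IsRoot] using hs
  have hω3 : ω ^ 3 = 1 := by linear_combination (ω - 1) * hω
  have hirr : Irreducible (Polynomial.X ^ 3 - Polynomial.C c) :=
    X_pow_sub_C_irreducible_of_prime Nat.prime_three hc
  have key : ∀ t : K, t ^ 3 = φ c → φ a + t * φ b + t ^ 2 * φ g = 0 → a = 0 ∧ b = 0 ∧ g = 0 := by
    intro t ht h0
    let f : Polynomial κ := Polynomial.C g * Polynomial.X ^ 2 + Polynomial.C b * Polynomial.X + Polynomial.C a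
    have hf0 : Polynomial.aeval t f = 0 := by
      simp only [f, map_add, map_mul, map_pow, Polynomial.aeval_X, Polynomial.aeval_C]
      have : φ g * t ^ 2 + φ b * t + φ a = 0 := by linear_combination h0
      exact this
    have hmin : minpoly κ t = Polynomial.X ^ 3 - Polynomial.C c := by
      refine (minpoly.eq_of_irreducible_of_monic hirr ?_ (Polynomial.monic_X_pow_sub_C c (by norm_num))).symm
      simp only [map_sub, map_pow, Polynomial.aeval_X, Polynomial.aeval_C]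
      exact sub_eq_zero.2 ht
    have hdvd : minpoly κ t ∣ f := minpoly.dvd κ t hf0
    have hf : f = 0 := by
      by_contra hne
      have hdeg := Polynomial.degree_le_of_dvd hdvd hne
      rw [hmin, Polynomial.degree_X_pow_sub_C (by norm_num)] at hdeg
      have : f.degree ≤ 2 := Polynomial.degree_quadratic_le
      have := hdeg.trans this
      exact absurd this (by decide)
    have c0 : f.coeff 0 = a := by simp [f]
    have c1 : f.coeff 1 = b := by simp [f]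
    have c2 : f.coeff 2 = g := by simp [f]
    rw [hf] at c0 c1 c2
    simp only [Polynomial.coeff_zero] at c0 c1 c2
    exact ⟨c0.symm, c1.symm, c2.symm⟩
  have hprod : (φ a + θ * φ b + θ ^ 2 * φ g) * (φ a + (ω * θ) * φ b + (ω * θ) ^ 2 * φ g) *
      (φ a + (ω ^ 2 * θ) * φ b + (ω ^ 2 * θ) ^ 2 * φ g) = 0 := by
    rw [cl3_prod (φ a) (φ b) (φ g) θ ω hω, hθ]
    have := congrArg φ h
    rw [map_sub, map_add, map_add, map_mul, map_mul, map_mul, map_mul, map_mul, map_mul, map_pow, map_pow, map_pow,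
      map_pow, map_zero, map_ofNat] at this
    exact this
  rcases mul_eq_zero.1 hprod with h1 | h1
  · rcases mul_eq_zero.1 h1 with h2 | h2
    · exact key θ hθ h2
    · exact key (ω * θ) (by rw [mul_pow, hω3, hθ, one_mul]) h2
  · refine key (ω ^ 2 * θ) ?_ h1
    rw [mul_pow, ← pow_mul, mul_comm 2 3, pow_mul, hω3, hθ, one_pow, one_mul]

/-- classes modulo cubes in a finite field -/
theorem cl3_cyc (κ : Type) [Field κ] [Finite κ] (e x : κ) (he : ∀ y : κ, y ^ 3 ≠ e) (hx : x ≠ 0) :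
    ∃ (i : ℕ) (t : κ), t ≠ 0 ∧ x = e ^ i * t ^ 3 := by
  have he0 : e ≠ 0 := fun h => he 0 (by rw [h]; simp)
  obtain ⟨g, hg⟩ := IsCyclic.exists_generator (α := κˣ)
  obtain ⟨m, hm⟩ := Subgroup.mem_zpowers_iff.1 (hg (Units.mk0 e he0))
  obtain ⟨k, hk⟩ := Subgroup.mem_zpowers_iff.1 (hg (Units.mk0 x hx))
  have hm3 : ¬ (3 : ℤ) ∣ m := by
    rintro ⟨q, rfl⟩
    refine he ((g ^ q : κˣ) : κ) ?_
    have := congrArg (fun u : κˣ => (u : κ)) hm
    simp only [Units.val_mk0] at this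
    rw [← this, mul_comm, zpow_mul]
    norm_cast
  have hi : (3 : ℤ) ∣ k - ((k * m) % 3) * m := by
    have h1 : m % 3 = 1 ∨ m % 3 = 2 := by omega
    have h2 : (k * m) % 3 = (k % 3) * (m % 3) % 3 := Int.mul_emod k m 3
    have h3 : (3 : ℤ) ∣ k - k * m * m := by
      have : (3 : ℤ) ∣ 1 - m * m := by
        rcases h1 with h | h
        · obtain ⟨q, hq⟩ : ∃ q, m = 3 * q + 1 := ⟨m / 3, by omega⟩
          exact ⟨-(3 * q * q + 2 * q), by rw [hq]; ring⟩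
        · obtain ⟨q, hq⟩ : ∃ q, m = 3 * q + 2 := ⟨m / 3, by omega⟩
          exact ⟨-(3 * q * q + 4 * q + 1), by rw [hq]; ring⟩
      obtain ⟨q, hq⟩ := this
      exact ⟨k * q, by linear_combination k * hq⟩
    obtain ⟨q, hq⟩ := h3
    have h4 := Int.emod_add_mul_ediv (k * m) 3
    exact ⟨q + (k * m / 3) * m, by linear_combination hq - m * h4⟩
  obtain ⟨q, hq⟩ := hi
  have hnn : 0 ≤ (k * m) % 3 := Int.emod_nonneg _ (by norm_num)
  obtain ⟨i, hi⟩ := Int.eq_ofNat_of_zero_le hnn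
  refine ⟨i, ((g ^ q : κˣ) : κ), Units.ne_zero _, ?_⟩
  have h1 : Units.mk0 x hx = (Units.mk0 e he0) ^ i * (g ^ q) ^ 3 := by
    rw [← hm, ← hk]
    have : k = m * i + q * 3 := by
      rw [hi] at hq
      linear_combination hq
    rw [this, zpow_add, zpow_mul, zpow_mul]
    norm_cast
  have := congrArg (fun u : κˣ => (u : κ)) h1
  simpa using this

end finfield

section valued

variable {k Ω : Type} [Field k] [Field Ω] [Algebra k Ω] {p : ℕ} [Fact p.Prime] (Lc : Loc k Ω p)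

theorem cl3_nm_mul (x y : Acl k Ω) : nm Lc (x * y) = nm Lc x * nm Lc y := by
  unfold nm
  rw [map_mul, norm_mul]

theorem cl3_nm_pow (x : Acl k Ω) (n : ℕ) : nm Lc (x ^ n) = nm Lc x ^ n := by
  unfold nm
  rw [map_pow, norm_pow]

theorem cl3_nm_zpow (x : Acl k Ω) (n : ℤ) : nm Lc (x ^ n) = nm Lc x ^ n := by
  unfold nm
  rw [map_zpow₀, norm_zpow]

theorem cl3_nm_div (x y : Acl k Ω) : nm Lc (x / y) = nm Lc x / nm Lc y := by
  unfold nm
  rw [map_div₀, norm_div]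

theorem cl3_nm_one : nm Lc (1 : Acl k Ω) = 1 := by
  unfold nm
  rw [map_one, norm_one]

theorem cl3_nm_zero : nm Lc (0 : Acl k Ω) = 0 := by
  unfold nm
  rw [map_zero, norm_zero]

theorem cl3_nm_nonneg (x : Acl k Ω) : 0 ≤ nm Lc x := norm_nonneg _

theorem cl3_nm_pos {x : Acl k Ω} (h : x ≠ 0) : 0 < nm Lc x := by
  unfold nm
  rw [norm_pos_iff]
  exact (map_ne_zero Lc.ι).2 h

theorem cl3_nm_neg (x : Acl k Ω) : nm Lc (-x) = nm Lc x := by
  unfold nm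
  rw [map_neg, norm_neg]

theorem cl3_nm_add (x y : Acl k Ω) : nm Lc (x + y) ≤ max (nm Lc x) (nm Lc y) := by
  unfold nm
  rw [map_add]
  exact IsUltrametricDist.norm_add_le_max _ _

theorem cl3_nm_sub (x y : Acl k Ω) : nm Lc (x - y) ≤ max (nm Lc x) (nm Lc y) := by
  rw [sub_eq_add_neg, ← cl3_nm_neg Lc y]
  exact cl3_nm_add Lc _ _

theorem cl3_nm_eq {x y : Acl k Ω} (h : nm Lc (x - y) < nm Lc y) : nm Lc x = nm Lc y := by
  apply le_antisymm
  · have := cl3_nm_add Lc (x - y) y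
    rw [sub_add_cancel] at this
    exact this.trans (max_le h.le le_rfl)
  · have := cl3_nm_sub Lc x (x - y)
    rw [sub_sub_cancel] at this
    rcases le_max_iff.1 this with h1 | h1
    · exact h1
    · exact absurd h1 (not_le.2 h)

/-- data of RESK -/
structure Cl3R (κ : Type) [Field κ] (ρ : FF Lc.S₁ → κ) : Prop where
  one : ρ 1 = 1
  surj : ∀ a : κ, ∃ x : FF Lc.S₁, nm Lc x ≤ 1 ∧ ρ x = a
  ker : ∀ x : FF Lc.S₁, nm Lc x ≤ 1 → (ρ x = 0 ↔ nm Lc x < 1)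
  hom : ∀ x y : FF Lc.S₁, nm Lc x ≤ 1 → nm Lc y ≤ 1 → ρ (x + y) = ρ x + ρ y ∧ ρ (x * y) = ρ x * ρ y

variable {κ : Type} [Field κ] {ρ : FF Lc.S₁ → κ}

/-- residue relation on `FF S` -/
def Cl3S (ρ : FF Lc.S₁ → κ) (S : Set (Acl k Ω)) (x : FF S) (t : κ) : Prop :=
  ∃ u : FF Lc.S₁, nm Lc u ≤ 1 ∧ nm Lc ((x : Acl k Ω) - u) < 1 ∧ ρ u = t

variable {Lc} {S : Set (Acl k Ω)}

theorem Cl3R.zero (hR : Cl3R Lc κ ρ) : ρ 0 = 0 := by
  have h0 : nm Lc ((0 : FF Lc.S₁) : Acl k Ω) = 0 := cl3_nm_zero Lc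
  rw [hR.ker 0 (by rw [h0]; norm_num), h0]
  norm_num

theorem Cl3R.neg (hR : Cl3R Lc κ ρ) {x : FF Lc.S₁} (hx : nm Lc x ≤ 1) : ρ (-x) = -ρ x := by
  have hx' : nm Lc ((-x : FF Lc.S₁) : Acl k Ω) ≤ 1 := by
    have : ((-x : FF Lc.S₁) : Acl k Ω) = -(x : Acl k Ω) := rfl
    rw [this, cl3_nm_neg]
    exact hx
  have := (hR.hom x (-x) hx hx').1
  rw [add_neg_cancel, hR.zero] at this
  linear_combination -this

omit [Field κ] in
theorem Cl3S.le {x : FF S} {t : κ} (h : Cl3S Lc ρ S x t) : nm Lc x ≤ 1 := by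
  obtain ⟨u, hu, hxu, -⟩ := h
  have := cl3_nm_add Lc ((x : Acl k Ω) - u) u
  rw [sub_add_cancel] at this
  exact this.trans (max_le hxu.le hu)

theorem Cl3S.add (hR : Cl3R Lc κ ρ) {x y : FF S} {t s : κ} (h : Cl3S Lc ρ S x t) (h' : Cl3S Lc ρ S y s) :
    Cl3S Lc ρ S (x + y) (t + s) := by
  obtain ⟨u, hu, hxu, rfl⟩ := h
  obtain ⟨v, hv, hyv, rfl⟩ := h'
  refine ⟨u + v, (cl3_nm_add Lc _ _).trans (max_le hu hv), ?_, (hR.hom u v hu hv).1⟩
  have e : (((x + y : FF S) : Acl k Ω) - ((u + v : FF Lc.S₁) : Acl k Ω)) = ((x : Acl k Ω) - u) + ((y : Acl k Ω) - v) := by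
    push_cast
    ring
  rw [e]
  exact (cl3_nm_add Lc _ _).trans_lt (max_lt hxu hyv)

theorem Cl3S.neg (hR : Cl3R Lc κ ρ) {x : FF S} {t : κ} (h : Cl3S Lc ρ S x t) : Cl3S Lc ρ S (-x) (-t) := by
  obtain ⟨u, hu, hxu, rfl⟩ := h
  refine ⟨-u, ?_, ?_, hR.neg hu⟩
  · have : ((-u : FF Lc.S₁) : Acl k Ω) = -(u : Acl k Ω) := rfl
    rw [this, cl3_nm_neg]
    exact hu
  · have e : (((-x : FF S) : Acl k Ω) - ((-u : FF Lc.S₁) : Acl k Ω)) = -((x : Acl k Ω) - u) := by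
      push_cast
      ring
    rw [e, cl3_nm_neg]
    exact hxu

theorem Cl3S.sub (hR : Cl3R Lc κ ρ) {x y : FF S} {t s : κ} (h : Cl3S Lc ρ S x t) (h' : Cl3S Lc ρ S y s) :
    Cl3S Lc ρ S (x - y) (t - s) := by
  rw [sub_eq_add_neg, sub_eq_add_neg]
  exact h.add hR (h'.neg hR)

theorem Cl3S.mul (hR : Cl3R Lc κ ρ) {x y : FF S} {t s : κ} (h : Cl3S Lc ρ S x t) (h' : Cl3S Lc ρ S y s) :
    Cl3S Lc ρ S (x * y) (t * s) := by
  have hx1 := h.le
  obtain ⟨u, hu, hxu, rfl⟩ := h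
  obtain ⟨v, hv, hyv, rfl⟩ := h'
  refine ⟨u * v, ?_, ?_, (hR.hom u v hu hv).2⟩
  · have : ((u * v : FF Lc.S₁) : Acl k Ω) = (u : Acl k Ω) * v := rfl
    rw [this, cl3_nm_mul]
    exact mul_le_one₀ hu (cl3_nm_nonneg Lc _) hv
  · have e : (((x * y : FF S) : Acl k Ω) - ((u * v : FF Lc.S₁) : Acl k Ω)) =
        (x : Acl k Ω) * ((y : Acl k Ω) - v) + ((x : Acl k Ω) - u) * (v : Acl k Ω) := by
      push_cast
      ring
    rw [e]
    refine (cl3_nm_add Lc _ _).trans_lt (max_lt ?_ ?_)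
    · rw [cl3_nm_mul]
      calc nm Lc (x : Acl k Ω) * nm Lc ((y : Acl k Ω) - v) ≤ 1 * nm Lc ((y : Acl k Ω) - v) :=
            mul_le_mul_of_nonneg_right hx1 (cl3_nm_nonneg Lc _)
        _ < 1 := by rw [one_mul]; exact hyv
    · rw [cl3_nm_mul]
      calc nm Lc ((x : Acl k Ω) - u) * nm Lc (v : Acl k Ω) ≤ nm Lc ((x : Acl k Ω) - u) * 1 :=
            mul_le_mul_of_nonneg_left hv (cl3_nm_nonneg Lc _)
        _ < 1 := by rw [mul_one]; exact hxu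

theorem Cl3S.one (hR : Cl3R Lc κ ρ) : Cl3S Lc ρ S 1 1 := by
  refine ⟨1, (cl3_nm_one Lc).le, ?_, hR.one⟩
  have e : (((1 : FF S) : Acl k Ω) - ((1 : FF Lc.S₁) : Acl k Ω)) = 0 := by
    push_cast
    ring
  rw [e, cl3_nm_zero]
  norm_num

theorem Cl3S.pow (hR : Cl3R Lc κ ρ) {x : FF S} {t : κ} (h : Cl3S Lc ρ S x t) (n : ℕ) :
    Cl3S Lc ρ S (x ^ n) (t ^ n) := by
  induction n with
  | zero => simpa using Cl3S.one hR
  | succ n ih =>
    rw [pow_succ, pow_succ]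
    exact ih.mul hR h

theorem Cl3S.iff (hR : Cl3R Lc κ ρ) {x : FF S} {t : κ} (h : Cl3S Lc ρ S x t) : t = 0 ↔ nm Lc x < 1 := by
  obtain ⟨u, hu, hxu, rfl⟩ := h
  rw [hR.ker u hu]
  constructor
  · intro h1
    have := cl3_nm_add Lc ((x : Acl k Ω) - u) u
    rw [sub_add_cancel] at this
    exact this.trans_lt (max_lt hxu h1)
  · intro h1
    have := cl3_nm_sub Lc (x : Acl k Ω) ((x : Acl k Ω) - u)
    rw [sub_sub_cancel] at this
    exact this.trans_lt (max_lt h1 hxu)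

/-- values of elements of `FF S` -/
theorem cl3_val {ϖ : Acl k Ω} (hG : Good Lc S ϖ) (x : FF S) (hx : x ≠ 0) : ∃ (j : ℤ) (u : FF Lc.S₁),
    nm Lc u = 1 ∧ nm Lc ((x : Acl k Ω) - u * ϖ ^ j) < nm Lc ϖ ^ j ∧ nm Lc x = nm Lc ϖ ^ j := by
  have hx' : (x : Acl k Ω) ≠ 0 := fun h => hx (Subtype.ext h)
  obtain ⟨j, u, hu, hu1, hlt⟩ := hG.apx x x.2 hx'
  refine ⟨j, ⟨u, hu⟩, hu1, hlt, ?_⟩
  have e : nm Lc (u * ϖ ^ j) = nm Lc ϖ ^ j := by rw [cl3_nm_mul, hu1, one_mul, cl3_nm_zpow]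
  rw [← e] at hlt ⊢
  exact cl3_nm_eq Lc hlt

theorem cl3_zpow_inj {ϖ : Acl k Ω} (hG : Good Lc S ϖ) {i j : ℤ} (h : nm Lc ϖ ^ i = nm Lc ϖ ^ j) : i = j :=
  zpow_right_injective₀ hG.pos hG.lt.ne h

theorem Cl3S.ex {ϖ : Acl k Ω} (hR : Cl3R Lc κ ρ) (hG : Good Lc S ϖ) (x : FF S) (hx : nm Lc x ≤ 1) :
    ∃ t, Cl3S Lc ρ S x t := by
  rcases lt_or_eq_of_le hx with h | h
  · refine ⟨0, 0, ?_, ?_, hR.zero⟩
    · have : ((0 : FF Lc.S₁) : Acl k Ω) = 0 := rfl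
      rw [this, cl3_nm_zero]
      norm_num
    · have : ((0 : FF Lc.S₁) : Acl k Ω) = 0 := rfl
      rw [this, sub_zero]
      exact h
  · have hx0 : x ≠ 0 := by
      rintro rfl
      have : ((0 : FF S) : Acl k Ω) = 0 := rfl
      rw [this, cl3_nm_zero] at h
      norm_num at h
    obtain ⟨j, u, hu1, hlt, hj⟩ := cl3_val hG x hx0
    have hj0 : j = 0 := cl3_zpow_inj hG (by rw [← hj, h, zpow_zero])
    subst hj0
    simp only [zpow_zero, mul_one] at hlt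
    exact ⟨ρ u, u, hu1.le, hlt, rfl⟩

/-- inclusion `FF S₁ → FF S` -/
def cl3_inc {ϖ : Acl k Ω} (hG : Good Lc S ϖ) (u : FF Lc.S₁) : FF S := ⟨u, FF_le hG.sub u.2⟩

omit [Field κ] in
theorem Cl3S.of {ϖ : Acl k Ω} (hG : Good Lc S ϖ) (u : FF Lc.S₁) (hu : nm Lc u ≤ 1) :
    Cl3S Lc ρ S (cl3_inc hG u) (ρ u) := by
  refine ⟨u, hu, ?_, rfl⟩
  have : ((cl3_inc hG u : FF S) : Acl k Ω) - u = 0 := sub_self _
  rw [this, cl3_nm_zero]
  norm_num

/-- the residue of `e` is not a cube -/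
theorem cl3_e (hR : Cl3R Lc κ ρ) {e : FF S} (he : Asym3 Lc e) {t : κ} (ht : Cl3S Lc ρ S e t) (s : κ) :
    s ^ 3 ≠ t := by
  intro hst
  obtain ⟨v, hv, hvs⟩ := hR.surj s
  have h := he.2.2.2.1 v v.2 hv
  have h1 : Cl3S Lc ρ Lc.S₁ v s := ⟨v, hv, by rw [sub_self, cl3_nm_zero]; norm_num, hvs⟩
  have h2 : Cl3S Lc ρ Lc.S₁ ⟨e, he.1⟩ t := ht
  have h3 := ((h1.pow hR 3).sub hR h2).iff hR
  rw [hst, sub_self] at h3
  exact absurd (h3.1 rfl) (not_lt.2 h)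

end valued

section rep

variable {F : Type} [Field F]

/-- representation modulo cubes -/
def Cl3Rep (e w x : F) (i j : ℤ) : Prop := ∃ y : F, y ≠ 0 ∧ x = e ^ i * w ^ j * y ^ 3

open Classical in
/-- the class map -/
noncomputable def cl3cl (e w x : F) : ZMod 3 × ZMod 3 :=
  if h : ∃ ij : ℤ × ℤ, Cl3Rep e w x ij.1 ij.2 then ((h.choose.1 : ZMod 3), (h.choose.2 : ZMod 3)) else 0

variable {e w : F} (he : e ≠ 0) (hw : w ≠ 0)
  (hun : ∀ (i j : ℤ) (y : F), y ≠ 0 → e ^ i * w ^ j * y ^ 3 = 1 → (3 : ℤ) ∣ i ∧ (3 : ℤ) ∣ j)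

include he hw hun in
theorem cl3_eq {x : F} {i j : ℤ} (h : Cl3Rep e w x i j) : cl3cl e w x = ((i : ZMod 3), (j : ZMod 3)) := by
  have hex : ∃ ij : ℤ × ℤ, Cl3Rep e w x ij.1 ij.2 := ⟨(i, j), h⟩
  unfold cl3cl
  rw [dif_pos hex]
  obtain ⟨y, hy, hxy⟩ := h
  obtain ⟨z, hz, hxz⟩ := hex.choose_spec
  set i' := hex.choose.1
  set j' := hex.choose.2
  have h1 : e ^ (i' - i) * w ^ (j' - j) * (z / y) ^ 3 = 1 := by
    rw [zpow_sub₀ he, zpow_sub₀ hw, div_pow]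
    have hx0 : e ^ i * w ^ j * y ^ 3 ≠ 0 :=
      mul_ne_zero (mul_ne_zero (zpow_ne_zero _ he) (zpow_ne_zero _ hw)) (pow_ne_zero _ hy)
    have : e ^ i' / e ^ i * (w ^ j' / w ^ j) * (z ^ 3 / y ^ 3) =
        (e ^ i' * w ^ j' * z ^ 3) / (e ^ i * w ^ j * y ^ 3) := by
      field_simp
    rw [this, ← hxz, ← hxy]
    rw [← hxy] at hx0
    exact div_self hx0
  obtain ⟨a, b⟩ := hun _ _ _ (div_ne_zero hz hy) h1
  rw [Prod.mk.injEq]
  constructor
  · rw [← sub_eq_zero, ← Int.cast_sub]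
    exact (ZMod.intCast_zmod_eq_zero_iff_dvd _ 3).2 (by exact_mod_cast a)
  · rw [← sub_eq_zero, ← Int.cast_sub]
    exact (ZMod.intCast_zmod_eq_zero_iff_dvd _ 3).2 (by exact_mod_cast b)

include he hw in
theorem Cl3Rep.mul {x x' : F} {i j i' j' : ℤ} (h : Cl3Rep e w x i j) (h' : Cl3Rep e w x' i' j') :
    Cl3Rep e w (x * x') (i + i') (j + j') := by
  obtain ⟨y, hy, rfl⟩ := h
  obtain ⟨z, hz, rfl⟩ := h'
  refine ⟨y * z, mul_ne_zero hy hz, ?_⟩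
  rw [zpow_add₀ he, zpow_add₀ hw]
  ring

theorem Cl3Rep.cube {y : F} (hy : y ≠ 0) : Cl3Rep e w (y ^ 3) 0 0 := ⟨y, hy, by simp⟩

variable (hex : ∀ x : F, x ≠ 0 → ∃ i j : ℤ, Cl3Rep e w x i j)

include he hw hun hex in
theorem cl3_mul {x y : F} (hx : x ≠ 0) (hy : y ≠ 0) : cl3cl e w (x * y) = cl3cl e w x + cl3cl e w y := by
  obtain ⟨i, j, h⟩ := hex x hx
  obtain ⟨i', j', h'⟩ := hex y hy
  rw [cl3_eq he hw hun (h.mul he hw h'), cl3_eq he hw hun h, cl3_eq he hw hun h']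
  push_cast
  rfl

include he hw hun in
theorem cl3_cube {y : F} (hy : y ≠ 0) : cl3cl e w (y ^ 3) = 0 := by
  rw [cl3_eq he hw hun (Cl3Rep.cube hy)]
  simp

include he hw hun hex in
theorem cl3_iff {x : F} (hx : x ≠ 0) : cl3cl e w x = 0 ↔ C3 x := by
  constructor
  · intro h
    obtain ⟨i, j, y, hy, hxy⟩ := hex x hx
    rw [cl3_eq he hw hun ⟨y, hy, hxy⟩, Prod.mk_eq_zero] at h
    have h1 := (ZMod.intCast_zmod_eq_zero_iff_dvd _ 3).1 h.1
    have h2 := (ZMod.intCast_zmod_eq_zero_iff_dvd _ 3).1 h.2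
    obtain ⟨a, ha⟩ := h1
    obtain ⟨b, hb⟩ := h2
    refine ⟨e ^ a * w ^ b * y, ?_⟩
    rw [hxy, ha, hb]
    push_cast
    rw [mul_comm 3 a, mul_comm 3 b, zpow_mul, zpow_mul]
    norm_cast
    ring
  · rintro ⟨y, rfl⟩
    exact cl3_cube he hw hun fun h => hx (by rw [h]; simp)

end rep

section main

variable {k Ω : Type} [Field k] [Field Ω] [Algebra k Ω] {p : ℕ} [Fact p.Prime] {Lc : Loc k Ω p}
  {S : Set (Acl k Ω)} {ϖ : Acl k Ω}

theorem cl3_one_unit {κ : Type} [Field κ] [Finite κ] {ρ : FF Lc.S₁ → κ} (hR : Cl3R Lc κ ρ)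
    (hG : Good Lc S ϖ) {e : FF S} (he : Asym3 Lc e) (r : ℕ) (hr : r = 1 ∨ r = 2) (a b g : FF S)
    (ha : nm Lc a ≤ 1) (hb : nm Lc b ≤ 1) (hg : nm Lc g ≤ 1)
    (h1 : nm Lc a = 1 ∨ nm Lc b = 1 ∨ nm Lc g = 1) :
    nm Lc ((a ^ 3 + e ^ r * b ^ 3 + (e ^ r) ^ 2 * g ^ 3 - 3 * (e ^ r * (a * (b * g))) : FF S) : Acl k Ω) = 1 := by
  obtain ⟨ta, hta⟩ := Cl3S.ex hR hG a ha
  obtain ⟨tb, htb⟩ := Cl3S.ex hR hG b hb
  obtain ⟨tg, htg⟩ := Cl3S.ex hR hG g hg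
  obtain ⟨te, hte⟩ := Cl3S.ex hR hG e he.2.1.le
  have h3 : Cl3S Lc ρ S 3 3 := by
    have := ((Cl3S.one hR).add hR (Cl3S.one (S := S) hR)).add hR (Cl3S.one hR)
    have e1 : (1 + 1 + 1 : FF S) = 3 := by norm_num
    have e2 : (1 + 1 + 1 : κ) = 3 := by norm_num
    rwa [e1, e2] at this
  have hr' := hte.pow hR r
  have hN := (((hta.pow hR 3).add hR (hr'.mul hR (htb.pow hR 3))).add hR ((hr'.pow hR 2).mul hR (htg.pow hR 3))).sub hR
    (h3.mul hR (hr'.mul hR (hta.mul hR (htb.mul hR htg))))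
  have hnc : ∀ y : κ, y ^ 3 ≠ te ^ r := by
    intro y hy
    rcases hr with rfl | rfl
    · exact cl3_e hR he hte y (by rw [hy, pow_one])
    · have hte0 : te ≠ 0 := by
        intro h0
        have := (hte.iff hR).1 h0
        rw [he.2.1] at this
        exact absurd this (lt_irrefl _)
      have hy0 : y ≠ 0 := by
        rintro rfl
        exact pow_ne_zero 2 hte0 (by rw [← hy]; simp)
      refine cl3_e hR he hte (te / y) ?_
      rw [div_pow, hy]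
      field_simp
  refine le_antisymm hN.le (not_lt.1 fun hlt => ?_)
  have h0 := (hN.iff hR).2 hlt
  obtain ⟨xa, xb, xg⟩ := cl3_aniso κ (te ^ r) hnc ta tb tg h0
  rcases h1 with h | h | h
  · exact absurd ((hta.iff hR).1 xa) (by rw [h]; exact lt_irrefl _)
  · exact absurd ((htb.iff hR).1 xb) (by rw [h]; exact lt_irrefl _)
  · exact absurd ((htg.iff hR).1 xg) (by rw [h]; exact lt_irrefl _)

theorem cl3_coe_ne {x : FF S} (hx : x ≠ 0) : (x : Acl k Ω) ≠ 0 := fun h => hx (Subtype.ext h)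

theorem cl3_w_ne (hG : Good Lc S ϖ) : (⟨ϖ, hG.mem⟩ : FF S) ≠ 0 := by
  intro h
  have h1 : ϖ = 0 := congrArg (fun x : FF S => (x : Acl k Ω)) h
  have h2 := hG.pos
  rw [h1, cl3_nm_zero] at h2
  exact lt_irrefl _ h2

theorem cl3_e_ne {e : FF S} (he : Asym3 Lc e) : e ≠ 0 := by
  rintro rfl
  have h := he.2.1
  have : ((0 : FF S) : Acl k Ω) = 0 := rfl
  rw [this, cl3_nm_zero] at h
  norm_num at h

theorem cl3_nmz (x : FF S) (n : ℤ) : nm Lc ((x ^ n : FF S) : Acl k Ω) = nm Lc (x : Acl k Ω) ^ n := by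
  have : ((x ^ n : FF S) : Acl k Ω) = (x : Acl k Ω) ^ n := map_zpow₀ (FF S).val x n
  rw [this, cl3_nm_zpow]

theorem cl3_nmm (x y : FF S) : nm Lc ((x * y : FF S) : Acl k Ω) = nm Lc (x : Acl k Ω) * nm Lc (y : Acl k Ω) :=
  cl3_nm_mul Lc _ _

theorem cl3_nmp (x : FF S) (n : ℕ) : nm Lc ((x ^ n : FF S) : Acl k Ω) = nm Lc (x : Acl k Ω) ^ n :=
  cl3_nm_pow Lc _ _

theorem cl3_un {κ : Type} [Field κ] {ρ : FF Lc.S₁ → κ} (hR : Cl3R Lc κ ρ)
    (hG : Good Lc S ϖ) {e : FF S} (he : Asym3 Lc e) (i j : ℤ) (y : FF S) (hy : y ≠ 0)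
    (h : e ^ i * (⟨ϖ, hG.mem⟩ : FF S) ^ j * y ^ 3 = 1) : (3 : ℤ) ∣ i ∧ (3 : ℤ) ∣ j := by
  have he0 := cl3_e_ne he
  have hw0 := cl3_w_ne hG
  obtain ⟨m, -, -, -, hm⟩ := cl3_val hG y hy
  have hnm := congrArg (fun x : FF S => nm Lc (x : Acl k Ω)) h
  have hval : nm Lc ϖ ^ (j + 3 * m) = nm Lc ϖ ^ (0 : ℤ) := by
    have e1 : nm Lc ((e ^ i * (⟨ϖ, hG.mem⟩ : FF S) ^ j * y ^ 3 : FF S) : Acl k Ω)
        = nm Lc (e : Acl k Ω) ^ i * nm Lc ϖ ^ j * nm Lc (y : Acl k Ω) ^ 3 := by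
      rw [cl3_nmm, cl3_nmm, cl3_nmz, cl3_nmz, cl3_nmp]
    have e2 : nm Lc ((1 : FF S) : Acl k Ω) = 1 := cl3_nm_one Lc
    rw [e1, e2, he.2.1, one_zpow, one_mul, hm] at hnm
    rw [zpow_zero, zpow_add₀ hG.pos.ne', mul_comm 3 m, zpow_mul]
    exact_mod_cast hnm
  have hj : j + 3 * m = 0 := cl3_zpow_inj hG hval
  refine ⟨?_, ⟨-m, by linarith⟩⟩
  set w : FF S := ⟨ϖ, hG.mem⟩ with hw
  obtain ⟨q, r, hq, hr0, hr3⟩ : ∃ (q : ℤ) (r : ℕ), i = 3 * q + r ∧ 0 ≤ r ∧ r < 3 :=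
    ⟨i / 3, (i % 3).toNat, by omega, by omega, by omega⟩
  set z : FF S := e ^ q * (w ^ (-m) * y) with hz
  have hz0 : z ≠ 0 := mul_ne_zero (zpow_ne_zero _ he0) (mul_ne_zero (zpow_ne_zero _ hw0) hy)
  have hz3 : e ^ r * z ^ 3 = 1 := by
    rw [← h, hz, hq, zpow_add₀ he0, mul_pow, mul_pow]
    have e1 : (e ^ q) ^ 3 = e ^ (3 * q) := by rw [mul_comm, zpow_mul]; norm_cast
    have e2 : (w ^ (-m)) ^ 3 = w ^ j := by
      have : j = (-m) * 3 := by linarith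
      rw [this, zpow_mul]; norm_cast
    rw [e1, e2, zpow_natCast]
    ring
  have hnz : nm Lc (z : Acl k Ω) = 1 := by
    have h1 := congrArg (fun x : FF S => nm Lc (x : Acl k Ω)) hz3
    have e1 : nm Lc ((e ^ r * z ^ 3 : FF S) : Acl k Ω) = nm Lc (e : Acl k Ω) ^ r * nm Lc (z : Acl k Ω) ^ 3 := by
      rw [cl3_nmm, cl3_nmp, cl3_nmp]
    have e2 : nm Lc ((1 : FF S) : Acl k Ω) = 1 := cl3_nm_one Lc
    rw [e1, e2, he.2.1, one_pow, one_mul] at h1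
    exact (pow_eq_one_iff_of_nonneg (cl3_nm_nonneg Lc _) (by norm_num)).1 h1
  obtain ⟨t, ht⟩ := Cl3S.ex hR hG z hnz.le
  obtain ⟨te, hte⟩ := Cl3S.ex hR hG e he.2.1.le
  have h1 := ((hte.pow hR r).mul hR (ht.pow hR 3)).sub hR (Cl3S.one hR)
  rw [hz3, sub_self] at h1
  have h2 := (h1.iff hR).2 (by
    have : ((0 : FF S) : Acl k Ω) = 0 := rfl
    rw [this, cl3_nm_zero]
    norm_num)
  have ht0 : t ≠ 0 := by
    intro h0
    have := (ht.iff hR).1 h0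
    rw [hnz] at this
    exact absurd this (lt_irrefl _)
  have hr : r = 0 ∨ r = 1 ∨ r = 2 := by omega
  rcases hr with rfl | rfl | rfl
  · exact ⟨q, by rw [hq]; simp⟩
  · exfalso
    refine cl3_e hR he hte t⁻¹ ?_
    rw [pow_one] at h2
    rw [inv_pow]
    field_simp
    linear_combination -h2
  · exfalso
    refine cl3_e hR he hte (te * t) ?_
    linear_combination te * h2

theorem cl3_ex {κ : Type} [Field κ] [Finite κ] {ρ : FF Lc.S₁ → κ} (hR : Cl3R Lc κ ρ)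
    (hG : Good Lc S ϖ) (hcube : ∀ x : FF S, nm Lc ((x : Acl k Ω) - 1) < 1 → C3 x) {e : FF S} (he : Asym3 Lc e)
    (x : FF S) (hx : x ≠ 0) : ∃ i j : ℤ, Cl3Rep e (⟨ϖ, hG.mem⟩ : FF S) x i j := by
  have he0 := cl3_e_ne he
  have hw0 := cl3_w_ne hG
  set w : FF S := ⟨ϖ, hG.mem⟩ with hw
  obtain ⟨j, u, hu1, hlt, hval⟩ := cl3_val hG x hx
  obtain ⟨te, hte⟩ := Cl3S.ex hR hG e he.2.1.le
  have hru : ρ u ≠ 0 := by
    rw [Ne, hR.ker u hu1.le, hu1]
    exact lt_irrefl _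
  obtain ⟨i, t, ht0, hit⟩ := cl3_cyc κ te (ρ u) (cl3_e hR he hte) hru
  obtain ⟨v, hv1, hvt⟩ := hR.surj t
  set uS : FF S := cl3_inc hG u with huS
  set vS : FF S := cl3_inc hG v with hvS
  have hU := Cl3S.of (ρ := ρ) hG u hu1.le
  have hV := Cl3S.of (ρ := ρ) hG v hv1
  rw [hvt] at hV
  have hnv : nm Lc (vS : Acl k Ω) = 1 := by
    refine le_antisymm hv1 (not_lt.1 fun h => ht0 ((hV.iff hR).2 h))
  have hvS0 : vS ≠ 0 := by
    intro h0
    rw [h0] at hnv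
    have : ((0 : FF S) : Acl k Ω) = 0 := rfl
    rw [this, cl3_nm_zero] at hnv
    norm_num at hnv
  have hnu : nm Lc (uS : Acl k Ω) = 1 := hu1
  have huS0 : uS ≠ 0 := by
    intro h0
    rw [h0] at hnu
    have : ((0 : FF S) : Acl k Ω) = 0 := rfl
    rw [this, cl3_nm_zero] at hnu
    norm_num at hnu
  have h1 := hU.sub hR ((hte.pow hR i).mul hR (hV.pow hR 3))
  rw [hit, sub_self] at h1
  have h2 := (h1.iff hR).1 rfl
  have hden : nm Lc ((e ^ i * vS ^ 3 : FF S) : Acl k Ω) = 1 := by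
    push_cast
    rw [cl3_nm_mul, cl3_nm_pow, cl3_nm_pow, he.2.1, hnv]
    simp
  have hd0 : e ^ i * vS ^ 3 ≠ 0 := mul_ne_zero (pow_ne_zero _ he0) (pow_ne_zero _ hvS0)
  obtain ⟨s1, hs1⟩ := hcube (uS / (e ^ i * vS ^ 3)) (by
    have e1 : ((uS / (e ^ i * vS ^ 3) : FF S) : Acl k Ω) - 1 = ((uS - e ^ i * vS ^ 3 : FF S) : Acl k Ω) /
        ((e ^ i * vS ^ 3 : FF S) : Acl k Ω) := by
      have : ((e ^ i * vS ^ 3 : FF S) : Acl k Ω) ≠ 0 := cl3_coe_ne hd0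
      rw [eq_div_iff this, sub_mul, one_mul]
      have e2 : ((uS / (e ^ i * vS ^ 3) : FF S) : Acl k Ω) = (uS : Acl k Ω) / ((e ^ i * vS ^ 3 : FF S) : Acl k Ω) := rfl
      rw [e2, div_mul_cancel₀ _ this]
      rfl
    rw [e1, cl3_nm_div, hden, div_one]
    exact h2)
  have hxd0 : uS * w ^ j ≠ 0 := mul_ne_zero huS0 (zpow_ne_zero _ hw0)
  obtain ⟨s2, hs2⟩ := hcube (x / (uS * w ^ j)) (by
    have this : ((uS * w ^ j : FF S) : Acl k Ω) ≠ 0 := cl3_coe_ne hxd0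
    have e3 : ((uS * w ^ j : FF S) : Acl k Ω) = (u : Acl k Ω) * ϖ ^ j := by
      push_cast
      rfl
    have e1 : ((x / (uS * w ^ j) : FF S) : Acl k Ω) - 1 = ((x : Acl k Ω) - u * ϖ ^ j) /
        ((uS * w ^ j : FF S) : Acl k Ω) := by
      rw [eq_div_iff this, sub_mul, one_mul]
      have e2 : ((x / (uS * w ^ j) : FF S) : Acl k Ω) = (x : Acl k Ω) / ((uS * w ^ j : FF S) : Acl k Ω) := rfl
      rw [e2, div_mul_cancel₀ _ this, e3]
    rw [e1, cl3_nm_div, e3, cl3_nm_mul, hu1, one_mul, cl3_nm_zpow, div_lt_one (zpow_pos hG.pos j)]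
    exact hlt)
  have hs10 : s1 ≠ 0 := by
    rintro rfl
    rw [zero_pow (by norm_num)] at hs1
    exact div_ne_zero huS0 hd0 hs1
  have hs20 : s2 ≠ 0 := by
    rintro rfl
    rw [zero_pow (by norm_num)] at hs2
    exact div_ne_zero hx hxd0 hs2
  refine ⟨i, j, vS * s1 * s2, mul_ne_zero (mul_ne_zero hvS0 hs10) hs20, ?_⟩
  rw [div_eq_iff hd0] at hs1
  rw [div_eq_iff hxd0] at hs2
  rw [hs2, hs1, zpow_natCast]
  ring

theorem cl3_coe_zero : ((0 : FF S) : Acl k Ω) = 0 := rfl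

theorem cl3_nat (n : ℕ) : nm Lc (n : Acl k Ω) ≤ 1 := by
  unfold nm
  rw [map_natCast]
  exact IsUltrametricDist.norm_natCast_le_one _ n

theorem cl3_dom (X Y Z P : FF S) (hX : X ≠ 0) (hY : nm Lc Y < nm Lc X) (hZ : nm Lc Z < nm Lc X)
    (hP : P ^ 3 = 27 * (X * (Y * Z))) :
    nm Lc (((X + Y + Z - P : FF S) : Acl k Ω) - X) < nm Lc X := by
  have hX0 : 0 < nm Lc (X : Acl k Ω) := cl3_nm_pos Lc (cl3_coe_ne hX)
  have hP1 : nm Lc (P : Acl k Ω) < nm Lc X := by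
    have h1 := congrArg (fun x : FF S => nm Lc (x : Acl k Ω)) hP
    have e1 : nm Lc ((P ^ 3 : FF S) : Acl k Ω) = nm Lc (P : Acl k Ω) ^ 3 := cl3_nmp P 3
    have e2 : nm Lc ((27 * (X * (Y * Z)) : FF S) : Acl k Ω) =
        nm Lc (27 : Acl k Ω) * (nm Lc (X : Acl k Ω) * (nm Lc (Y : Acl k Ω) * nm Lc (Z : Acl k Ω))) := by
      rw [cl3_nmm, cl3_nmm, cl3_nmm]
      rfl
    rw [e1, e2] at h1
    have h27 : nm Lc (27 : Acl k Ω) ≤ 1 := by
      have := cl3_nat (Lc := Lc) 27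
      exact_mod_cast this
    have hY0 := cl3_nm_nonneg Lc (Y : Acl k Ω)
    have hZ0 := cl3_nm_nonneg Lc (Z : Acl k Ω)
    have h2 : nm Lc (Y : Acl k Ω) * nm Lc (Z : Acl k Ω) < nm Lc (X : Acl k Ω) * nm Lc (X : Acl k Ω) :=
      mul_lt_mul'' hY hZ hY0 hZ0
    have h3 : nm Lc (P : Acl k Ω) ^ 3 < nm Lc (X : Acl k Ω) ^ 3 := by
      rw [h1]
      calc nm Lc (27 : Acl k Ω) * (nm Lc (X : Acl k Ω) * (nm Lc (Y : Acl k Ω) * nm Lc (Z : Acl k Ω)))
          ≤ 1 * (nm Lc (X : Acl k Ω) * (nm Lc (Y : Acl k Ω) * nm Lc (Z : Acl k Ω))) :=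
            mul_le_mul_of_nonneg_right h27 (by positivity)
        _ = nm Lc (X : Acl k Ω) * (nm Lc (Y : Acl k Ω) * nm Lc (Z : Acl k Ω)) := one_mul _
        _ < nm Lc (X : Acl k Ω) * (nm Lc (X : Acl k Ω) * nm Lc (X : Acl k Ω)) :=
            mul_lt_mul_of_pos_left h2 hX0
        _ = nm Lc (X : Acl k Ω) ^ 3 := by ring
    exact lt_of_pow_lt_pow_left₀ 3 hX0.le h3
  have e : ((X + Y + Z - P : FF S) : Acl k Ω) - X = (Y : Acl k Ω) + Z - P := by
    push_cast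
    ring
  rw [e]
  exact (cl3_nm_sub Lc _ _).trans_lt (max_lt ((cl3_nm_add Lc _ _).trans_lt (max_lt hY hZ)) hP1)

theorem cl3_max (x y z : ℝ) : (y ≤ x ∧ z ≤ x) ∨ (x ≤ y ∧ z ≤ y) ∨ (x ≤ z ∧ y ≤ z) := by
  rcases le_total x y with h | h
  · rcases le_total y z with h' | h'
    · exact Or.inr (Or.inr ⟨h.trans h', h'⟩)
    · exact Or.inr (Or.inl ⟨h, h'⟩)
  · rcases le_total x z with h' | h'
    · exact Or.inr (Or.inr ⟨h', h.trans h'⟩)
    · exact Or.inl ⟨h, h'⟩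

theorem st_CL3 (hPRU : ST_PRU) (hRESK : ST_RESK) : ST_CL3 := by
  intro k Ω _ _ _ _ _ p _ hp3 Lc S ϖ hG e he
  obtain ⟨κ, _, _, _, ρ, hρ1, hρ2, hρ3, hρ4⟩ := hRESK k Ω p Lc
  have hR : Cl3R Lc κ ρ := ⟨hρ1, hρ2, hρ3, hρ4⟩
  have hcube : ∀ x : FF S, nm Lc ((x : Acl k Ω) - 1) < 1 → C3 x := by
    intro x hx
    refine hPRU k Ω p Lc S hG.sub 3 ?_ x hx
    rw [Nat.prime_dvd_prime_iff_eq (Fact.out : p.Prime) Nat.prime_three]
    exact hp3
  have he0 := cl3_e_ne he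
  have hw0 := cl3_w_ne hG
  have hun := cl3_un hR hG he
  have hex := cl3_ex hR hG hcube he
  set w : FF S := ⟨ϖ, hG.mem⟩ with hw
  set cl := cl3cl e w with hcl
  have hmul : ∀ x y : FF S, x ≠ 0 → y ≠ 0 → cl (x * y) = cl x + cl y := fun x y hx hy =>
    cl3_mul he0 hw0 hun hex hx hy
  have hcb : ∀ y : FF S, y ≠ 0 → cl (y ^ 3) = 0 := fun y hy => cl3_cube he0 hw0 hun hy
  have hone : cl 1 = 0 := by
    have := hcb 1 one_ne_zero
    rwa [one_pow] at this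
  have hnear : ∀ x M : FF S, M ≠ 0 → nm Lc ((x : Acl k Ω) - M) < nm Lc M → cl x = cl M := by
    intro x M hM h
    have hM' : (M : Acl k Ω) ≠ 0 := cl3_coe_ne hM
    have hM0 : 0 < nm Lc (M : Acl k Ω) := cl3_nm_pos Lc hM'
    obtain ⟨s, hs⟩ := hcube (x / M) (by
      have e1 : ((x / M : FF S) : Acl k Ω) - 1 = ((x : Acl k Ω) - M) / M := by
        rw [eq_div_iff hM', sub_mul, one_mul]
        have e2 : ((x / M : FF S) : Acl k Ω) = (x : Acl k Ω) / M := rfl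
        rw [e2, div_mul_cancel₀ _ hM']
      rw [e1, cl3_nm_div, div_lt_one hM0]
      exact h)
    have hx0 : x ≠ 0 := by
      rintro rfl
      have e1 := cl3_nm_eq Lc h
      rw [cl3_coe_zero, cl3_nm_zero] at e1
      rw [← e1] at hM0
      exact lt_irrefl _ hM0
    have hs0 : s ≠ 0 := by
      rintro rfl
      rw [zero_pow (by norm_num)] at hs
      exact div_ne_zero hx0 hM hs
    rw [div_eq_iff hM] at hs
    rw [hs, hmul _ _ (pow_ne_zero _ hs0) hM, hcb s hs0, zero_add]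
  have hsnd1 : ∀ X : FF S, nm Lc X = 1 → (cl X).2 = 0 := by
    intro X hX
    have hX0 : X ≠ 0 := by
      rintro rfl
      rw [cl3_coe_zero, cl3_nm_zero] at hX
      norm_num at hX
    obtain ⟨i, j, hij⟩ := hex X hX0
    rw [hcl, cl3_eq he0 hw0 hun hij]
    obtain ⟨y, hy, hxy⟩ := hij
    obtain ⟨m, -, -, -, hm⟩ := cl3_val hG y hy
    have hval : nm Lc ϖ ^ (j + 3 * m) = nm Lc ϖ ^ (0 : ℤ) := by
      have e1 : nm Lc ((e ^ i * w ^ j * y ^ 3 : FF S) : Acl k Ω)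
          = nm Lc (e : Acl k Ω) ^ i * nm Lc ϖ ^ j * nm Lc (y : Acl k Ω) ^ 3 := by
        rw [cl3_nmm, cl3_nmm, cl3_nmz, cl3_nmz, cl3_nmp]
      rw [hxy, e1, he.2.1, one_zpow, one_mul, hm] at hX
      rw [zpow_zero, zpow_add₀ hG.pos.ne', mul_comm 3 m, zpow_mul]
      exact_mod_cast hX
    have hj : j + 3 * m = 0 := cl3_zpow_inj hG hval
    exact (ZMod.intCast_zmod_eq_zero_iff_dvd _ 3).2 ⟨-m, by push_cast; linarith⟩
  have hsnd : ∀ X Y : FF S, X ≠ 0 → Y ≠ 0 → nm Lc X = nm Lc Y → (cl X).2 = (cl Y).2 := by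
    intro X Y hX hY h
    have hY0 : 0 < nm Lc (Y : Acl k Ω) := cl3_nm_pos Lc (cl3_coe_ne hY)
    have h1 : nm Lc ((X / Y : FF S) : Acl k Ω) = 1 := by
      have e2 : ((X / Y : FF S) : Acl k Ω) = (X : Acl k Ω) / Y := rfl
      rw [e2, cl3_nm_div, h, div_self hY0.ne']
    have h2 : X = (X / Y) * Y := by field_simp
    rw [h2, hmul _ _ (div_ne_zero hX hY) hY, Prod.snd_add, hsnd1 _ h1, zero_add]
  refine ⟨cl, hmul, fun x hx => cl3_iff he0 hw0 hun hex hx, ?_, ?_, ?_⟩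
  · have : Cl3Rep e w e 1 0 := ⟨1, one_ne_zero, by simp⟩
    rw [hcl, cl3_eq he0 hw0 hun this]
    simp
  · obtain ⟨y, hyS, hy⟩ := he.2.2.2.2
    set yS : FF S := cl3_inc hG ⟨y, hyS⟩ with hyS'
    have h1e : nm Lc ((1 + e : FF S) : Acl k Ω) = 1 := he.2.2.1
    have hX : nm Lc (((1 + e : FF S) : Acl k Ω) - ((e ^ 2 * yS ^ 3 : FF S) : Acl k Ω)) < 1 := hy
    have hY1 : nm Lc ((e ^ 2 * yS ^ 3 : FF S) : Acl k Ω) = 1 := by
      rw [← h1e]
      apply cl3_nm_eq Lc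
      rw [h1e, ← cl3_nm_neg, neg_sub]
      exact hX
    have hY0 : e ^ 2 * yS ^ 3 ≠ 0 := by
      intro h0
      rw [h0, cl3_coe_zero, cl3_nm_zero] at hY1
      norm_num at hY1
    have hyS0 : yS ≠ 0 := by
      rintro h0
      rw [h0] at hY0
      exact hY0 (by simp)
    have h2 : cl (1 + e) = cl (e ^ 2 * yS ^ 3) := hnear _ _ hY0 (by rw [hY1]; exact hX)
    have h3 : Cl3Rep e w (e ^ 2 * yS ^ 3) 2 0 := ⟨yS, hyS0, by simp⟩
    rw [h2, hcl, cl3_eq he0 hw0 hun h3]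
    simp
  · intro c d a b g hc hd hform
    by_cases hg2 : (cl c).2 = 0
    · by_cases hg1 : (cl c).1 = 0
      · rw [hg1, hg2, zero_mul, zero_mul]
      · have hd2 : (cl d).2 = 0 := by
          obtain ⟨i, j, hij⟩ := hex c hc
          have hcle := cl3_eq he0 hw0 hun hij
          obtain ⟨y, hy, hxy⟩ := hij
          rw [← hcl] at hcle
          rw [hcle] at hg1 hg2
          obtain ⟨j', hj'⟩ := (ZMod.intCast_zmod_eq_zero_iff_dvd _ 3).1 hg2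
          have hi3 : ¬ ((3 : ℕ) : ℤ) ∣ i := fun h => hg1 ((ZMod.intCast_zmod_eq_zero_iff_dvd _ 3).2 h)
          obtain ⟨q, r, hq, hr⟩ : ∃ (q : ℤ) (r : ℕ), i = 3 * q + r ∧ (r = 1 ∨ r = 2) :=
            ⟨i / 3, (i % 3).toNat, by omega, by omega⟩
          set z : FF S := e ^ q * w ^ j' * y with hz
          have hcz : c = e ^ r * z ^ 3 := by
            rw [hxy, hq, hj', hz, zpow_add₀ he0, mul_pow, mul_pow, mul_comm 3 q]
            push_cast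
            rw [mul_comm 3 j', zpow_mul, zpow_mul]
            norm_cast
            ring
          have hform2 : d = a ^ 3 + e ^ r * (z * b) ^ 3 + (e ^ r) ^ 2 * (z ^ 2 * g) ^ 3 -
              3 * (e ^ r * (a * ((z * b) * (z ^ 2 * g)))) := by
            rw [hform, hcz]
            ring
          obtain ⟨m, hma, hmb, hmg, hm⟩ : ∃ m : FF S, nm Lc a ≤ nm Lc m ∧ nm Lc (z * b : FF S) ≤ nm Lc m ∧
              nm Lc (z ^ 2 * g : FF S) ≤ nm Lc m ∧ (m = a ∨ m = z * b ∨ m = z ^ 2 * g) := by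
            rcases cl3_max (nm Lc (a : Acl k Ω)) (nm Lc ((z * b : FF S) : Acl k Ω))
              (nm Lc ((z ^ 2 * g : FF S) : Acl k Ω)) with h | h | h
            · exact ⟨a, le_rfl, h.1, h.2, Or.inl rfl⟩
            · exact ⟨z * b, h.1, le_rfl, h.2, Or.inr (Or.inl rfl)⟩
            · exact ⟨z ^ 2 * g, h.1, h.2, le_rfl, Or.inr (Or.inr rfl)⟩
          have hm0 : m ≠ 0 := by
            rintro rfl
            rw [cl3_coe_zero, cl3_nm_zero] at hma hmb hmg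
            have z1 : ∀ x : FF S, nm Lc (x : Acl k Ω) ≤ 0 → x = 0 := by
              intro x hx
              by_contra hne
              exact absurd (cl3_nm_pos Lc (cl3_coe_ne hne)) (not_lt.2 hx)
            rw [z1 _ hma, z1 _ hmb, z1 _ hmg] at hform2
            exact hd (by rw [hform2]; simp)
          have hmpos : 0 < nm Lc (m : Acl k Ω) := cl3_nm_pos Lc (cl3_coe_ne hm0)
          have hdiv : ∀ x : FF S, nm Lc ((x / m : FF S) : Acl k Ω) = nm Lc (x : Acl k Ω) / nm Lc (m : Acl k Ω) :=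
            fun x => cl3_nm_div Lc _ _
          have hu := cl3_one_unit hR hG he r hr (a / m) (z * b / m) (z ^ 2 * g / m)
            (by rw [hdiv, div_le_one hmpos]; exact hma) (by rw [hdiv, div_le_one hmpos]; exact hmb)
            (by rw [hdiv, div_le_one hmpos]; exact hmg) (by
              rcases hm with h | h | h
              · left; rw [hdiv, ← h, div_self hmpos.ne']
              · right; left; rw [hdiv, ← h, div_self hmpos.ne']
              · right; right; rw [hdiv, ← h, div_self hmpos.ne'])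
          have hdm : (a / m) ^ 3 + e ^ r * (z * b / m) ^ 3 + (e ^ r) ^ 2 * (z ^ 2 * g / m) ^ 3 -
              3 * (e ^ r * ((a / m) * ((z * b / m) * (z ^ 2 * g / m)))) = d / m ^ 3 := by
            rw [hform2]
            field_simp
          rw [hdm] at hu
          have h4 := hsnd1 _ hu
          have h5 : d = d / m ^ 3 * m ^ 3 := by field_simp
          rw [h5, hmul _ _ (div_ne_zero hd (pow_ne_zero _ hm0)) (pow_ne_zero _ hm0), hcb m hm0, add_zero]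
          exact h4
        rw [hd2, hg2, mul_zero, zero_mul]
    · have kA : a ^ 3 ≠ 0 → cl (a ^ 3) = 0 := fun h => hcb a fun h0 => h (by rw [h0]; simp)
      have kB : c * b ^ 3 ≠ 0 → cl (c * b ^ 3) = cl c := by
        intro h
        have hb : b ≠ 0 := fun h0 => h (by rw [h0]; simp)
        rw [hmul _ _ hc (pow_ne_zero _ hb), hcb b hb, add_zero]
      have kG : c ^ 2 * g ^ 3 ≠ 0 → cl (c ^ 2 * g ^ 3) = cl c + cl c := by
        intro h
        have hb : g ≠ 0 := fun h0 => h (by rw [h0]; simp)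
        rw [hmul _ _ (pow_ne_zero _ hc) (pow_ne_zero _ hb), hcb g hb, add_zero, sq, hmul _ _ hc hc]
      have g3 : (cl c).2 + (cl c).2 ≠ 0 ∧ (cl c).2 + (cl c).2 ≠ (cl c).2 := by
        have : ∀ x : ZMod 3, x ≠ 0 → x + x ≠ 0 ∧ x + x ≠ x := by decide
        exact this _ hg2
      have nz : ∀ x : FF S, 0 < nm Lc (x : Acl k Ω) → x ≠ 0 := by
        rintro x hx rfl
        rw [cl3_coe_zero, cl3_nm_zero] at hx
        exact lt_irrefl _ hx
      have z1 : ∀ x : FF S, nm Lc (x : Acl k Ω) ≤ 0 → x = 0 := by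
        intro x hx
        by_contra hne
        exact absurd (cl3_nm_pos Lc (cl3_coe_ne hne)) (not_lt.2 hx)
      have hP0 : a ^ 3 = 0 → c * b ^ 3 = 0 → c ^ 2 * g ^ 3 = 0 → False := by
        intro h1 h2 h3
        have ha : a = 0 := pow_eq_zero_iff (n := 3) (by norm_num) |>.1 h1
        rw [ha] at hform
        rw [h2, h3] at hform
        exact hd (by rw [hform]; simp)
      have nAB : c * b ^ 3 ≠ 0 → a ^ 3 ≠ 0 → nm Lc (c * b ^ 3 : FF S) ≠ nm Lc (a ^ 3 : FF S) := by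
        intro h1 h2 h3
        have := hsnd _ _ h1 h2 h3
        rw [kA h2, kB h1] at this
        exact hg2 this
      have nAG : c ^ 2 * g ^ 3 ≠ 0 → a ^ 3 ≠ 0 → nm Lc (c ^ 2 * g ^ 3 : FF S) ≠ nm Lc (a ^ 3 : FF S) := by
        intro h1 h2 h3
        have := hsnd _ _ h1 h2 h3
        rw [kA h2, kG h1] at this
        exact g3.1 this
      have nBG : c ^ 2 * g ^ 3 ≠ 0 → c * b ^ 3 ≠ 0 → nm Lc (c ^ 2 * g ^ 3 : FF S) ≠ nm Lc (c * b ^ 3 : FF S) := by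
        intro h1 h2 h3
        have := hsnd _ _ h1 h2 h3
        rw [kB h2, kG h1] at this
        exact g3.2 this
      rcases cl3_max (nm Lc ((a ^ 3 : FF S) : Acl k Ω)) (nm Lc ((c * b ^ 3 : FF S) : Acl k Ω))
          (nm Lc ((c ^ 2 * g ^ 3 : FF S) : Acl k Ω)) with h | h | h
      · have hA : a ^ 3 ≠ 0 := by
          intro h0
          rw [h0, cl3_coe_zero, cl3_nm_zero] at h
          exact hP0 h0 (z1 _ h.1) (z1 _ h.2)
        have hB : nm Lc ((c * b ^ 3 : FF S) : Acl k Ω) < nm Lc ((a ^ 3 : FF S) : Acl k Ω) := by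
          refine lt_of_le_of_ne h.1 fun h1 => ?_
          exact nAB (nz _ (by rw [h1]; exact cl3_nm_pos Lc (cl3_coe_ne hA))) hA h1
        have hGg : nm Lc ((c ^ 2 * g ^ 3 : FF S) : Acl k Ω) < nm Lc ((a ^ 3 : FF S) : Acl k Ω) := by
          refine lt_of_le_of_ne h.2 fun h1 => ?_
          exact nAG (nz _ (by rw [h1]; exact cl3_nm_pos Lc (cl3_coe_ne hA))) hA h1
        have hdo := cl3_dom (a ^ 3) (c * b ^ 3) (c ^ 2 * g ^ 3) (3 * (c * (a * (b * g)))) hA hB hGg (by ring)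
        rw [← hform] at hdo
        rw [hnear d _ hA hdo, kA hA]
        simp
      · have hA : c * b ^ 3 ≠ 0 := by
          intro h0
          rw [h0, cl3_coe_zero, cl3_nm_zero] at h
          exact hP0 (z1 _ h.1) h0 (z1 _ h.2)
        have hB : nm Lc ((a ^ 3 : FF S) : Acl k Ω) < nm Lc ((c * b ^ 3 : FF S) : Acl k Ω) := by
          refine lt_of_le_of_ne h.1 fun h1 => ?_
          exact nAB hA (nz _ (by rw [h1]; exact cl3_nm_pos Lc (cl3_coe_ne hA))) h1.symm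
        have hGg : nm Lc ((c ^ 2 * g ^ 3 : FF S) : Acl k Ω) < nm Lc ((c * b ^ 3 : FF S) : Acl k Ω) := by
          refine lt_of_le_of_ne h.2 fun h1 => ?_
          exact nBG (nz _ (by rw [h1]; exact cl3_nm_pos Lc (cl3_coe_ne hA))) hA h1
        have hdo := cl3_dom (c * b ^ 3) (a ^ 3) (c ^ 2 * g ^ 3) (3 * (c * (a * (b * g)))) hA hB hGg (by ring)
        have e1 : c * b ^ 3 + a ^ 3 + c ^ 2 * g ^ 3 - 3 * (c * (a * (b * g))) = d := by rw [hform]; ring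
        rw [e1] at hdo
        rw [hnear d _ hA hdo, kB hA]
        ring
      · have hA : c ^ 2 * g ^ 3 ≠ 0 := by
          intro h0
          rw [h0, cl3_coe_zero, cl3_nm_zero] at h
          exact hP0 (z1 _ h.1) (z1 _ h.2) h0
        have hB : nm Lc ((a ^ 3 : FF S) : Acl k Ω) < nm Lc ((c ^ 2 * g ^ 3 : FF S) : Acl k Ω) := by
          refine lt_of_le_of_ne h.1 fun h1 => ?_
          exact nAG hA (nz _ (by rw [h1]; exact cl3_nm_pos Lc (cl3_coe_ne hA))) h1.symm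
        have hGg : nm Lc ((c * b ^ 3 : FF S) : Acl k Ω) < nm Lc ((c ^ 2 * g ^ 3 : FF S) : Acl k Ω) := by
          refine lt_of_le_of_ne h.2 fun h1 => ?_
          exact nBG hA (nz _ (by rw [h1]; exact cl3_nm_pos Lc (cl3_coe_ne hA))) h1.symm
        have hdo := cl3_dom (c ^ 2 * g ^ 3) (a ^ 3) (c * b ^ 3) (3 * (c * (a * (b * g)))) hA hB hGg (by ring)
        have e1 : c ^ 2 * g ^ 3 + a ^ 3 + c * b ^ 3 - 3 * (c * (a * (b * g))) = d := by rw [hform]; ring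
        rw [e1] at hdo
        rw [hnear d _ hA hdo, kG hA, Prod.fst_add, Prod.snd_add]
        ring

end main

end Pool.Agent.Helper14.BSC
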